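import Pool.Agent.helper94.SCT.Spec

/-!
# MP_ad8ced, row sct:MEL
-/

set_option autoImplicit false

namespace Pool.Agent.SCT

open Finset ArithmeticFunction MeasureTheory
open Pool.Agent.CH (nit eU)
open Pool.Agent.helper78.ED (wg SS)
open Pool.Agent.helper85.BVP (beta)

private theorem MEL_cont (N : ℝ) (hN : 0 < N) :
    Continuous fun τ : ℝ => (N : ℂ) ^ ((2 : ℂ) + (τ : ℂ) * Complex.I) := by
  have hN0 : (N : ℂ) ≠ 0 := by exact_mod_cast hN.ne'
  refine Continuous.const_cpow (by fun_prop) (Or.inl hN0)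

private theorem MEL_norm (N : ℝ) (hN : 0 < N) (τ : ℝ) :
    ‖(N : ℂ) ^ ((2 : ℂ) + (τ : ℂ) * Complex.I)‖ = N ^ (2 : ℝ) := by
  rw [Complex.norm_cpow_eq_rpow_re_of_pos hN]
  simp

private theorem MEL_term (n : ℕ) (hn : n ≠ 0) (N : ℝ) (hN : 0 < N) (t τ : ℝ) :
    nu t n * Complex.exp (-(((2 : ℝ) : ℂ) + (τ : ℂ) * Complex.I) * ((Real.log ((n : ℝ) / N) : ℝ) : ℂ)) =
      ((n : ℂ) ^ ((2 : ℂ) + ((t + τ : ℝ) : ℂ) * Complex.I))⁻¹ *
        (N : ℂ) ^ ((2 : ℂ) + (τ : ℂ) * Complex.I) := by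
  have hn0 : (n : ℂ) ≠ 0 := by exact_mod_cast hn
  have hN0 : (N : ℂ) ≠ 0 := by exact_mod_cast hN.ne'
  have hnR : (n : ℝ) ≠ 0 := by exact_mod_cast hn
  rw [nu_cpow t hn, ← Complex.cpow_neg, Complex.cpow_def_of_ne_zero hn0, Complex.cpow_def_of_ne_zero hn0,
    Complex.cpow_def_of_ne_zero hN0, ← Complex.exp_add, ← Complex.exp_add, Real.log_div hnR hN.ne',
    ← Complex.natCast_log, ← Complex.ofReal_log hN.le]
  congr 1
  push_cast
  ring

theorem MEL (hINV : INV_stmt) (hDEC : DEC_stmt) : MEL_stmt := by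
  intro φ hφ N t hN
  have hN0 : 0 < N := by linarith
  obtain ⟨hint, hinv⟩ := hINV φ hφ 2 (by norm_num)
  have h2 : ((2 : ℝ) : ℂ) = 2 := by norm_num
  set G : ℝ → ℂ := fun τ => Mt φ (2 + (τ : ℂ) * Complex.I) * (N : ℂ) ^ (2 + (τ : ℂ) * Complex.I) with hG
  have hGint : Integrable G := by
    rw [h2] at hint
    refine hint.mul_bdd (c := N ^ (2 : ℝ)) (MEL_cont N hN0).aestronglyMeasurable ?_
    exact Filter.Eventually.of_forall fun τ => (MEL_norm N hN0 τ).le
  set F : ℕ → ℝ → ℂ := fun n τ =>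
    LSeries.term (fun k => (vonMangoldt k : ℂ)) (2 + ((t + τ : ℝ) : ℂ) * Complex.I) n * G τ with hF
  have hre : ∀ τ : ℝ, (2 + ((t + τ : ℝ) : ℂ) * Complex.I).re = 2 := by
    intro τ
    simp
  have hterm : ∀ (n : ℕ) (τ : ℝ),
      ‖LSeries.term (fun k => (vonMangoldt k : ℂ)) (2 + ((t + τ : ℝ) : ℂ) * Complex.I) n‖ =
        ‖LSeries.term (fun k => (vonMangoldt k : ℂ)) 2 n‖ := by
    intro n τ
    rw [LSeries.norm_term_eq, LSeries.norm_term_eq, hre]
    simp
  have hFint : ∀ n, Integrable (F n) := by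
    intro n
    refine hGint.bdd_mul (c := ‖LSeries.term (fun k => (vonMangoldt k : ℂ)) 2 n‖) ?_ ?_
    · refine Continuous.aestronglyMeasurable ?_
      rcases Nat.eq_zero_or_pos n with h0 | h0
      · subst h0
        simp only [LSeries.term_zero]
        exact continuous_const
      · have hn0 : (n : ℂ) ≠ 0 := by exact_mod_cast h0.ne'
        simp only [LSeries.term_def, if_neg h0.ne']
        refine Continuous.div continuous_const ?_ ?_
        · refine Continuous.const_cpow (by fun_prop) (Or.inl hn0)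
        · intro τ
          rw [Complex.cpow_def_of_ne_zero hn0]
          exact Complex.exp_ne_zero _
    · exact Filter.Eventually.of_forall fun τ => (hterm n τ).le
  have hFsum : Summable fun n => ∫ τ, ‖F n τ‖ := by
    have e : ∀ n, ∫ τ, ‖F n τ‖ = ‖LSeries.term (fun k => (vonMangoldt k : ℂ)) 2 n‖ * ∫ τ, ‖G τ‖ := by
      intro n
      rw [← integral_const_mul]
      refine integral_congr_ae (Filter.Eventually.of_forall fun τ => ?_)
      simp only [hF, norm_mul]
      rw [hterm]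
    simp_rw [e]
    refine Summable.mul_right _ ?_
    have h3 : LSeriesSummable (fun k => (vonMangoldt k : ℂ)) 2 :=
      LSeriesSummable_vonMangoldt (by norm_num)
    exact h3.norm
  have hS := hasSum_integral_of_summable_integral_norm hFint hFsum
  have hR : ∫ τ, (∑' n, F n τ) = ∫ τ : ℝ, -logDeriv riemannZeta (2 + ((t + τ : ℝ) : ℂ) * Complex.I) *
      (Mt φ (2 + (τ : ℂ) * Complex.I) * (N : ℂ) ^ (2 + (τ : ℂ) * Complex.I)) := by
    refine integral_congr_ae (Filter.Eventually.of_forall fun τ => ?_)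
    simp only [hF]
    rw [tsum_mul_right]
    have h4 : (∑' n, LSeries.term (fun k => (vonMangoldt k : ℂ)) (2 + ((t + τ : ℝ) : ℂ) * Complex.I) n) =
        - deriv riemannZeta (2 + ((t + τ : ℝ) : ℂ) * Complex.I) /
          riemannZeta (2 + ((t + τ : ℝ) : ℂ) * Complex.I) :=
      LSeries_vonMangoldt_eq_deriv_riemannZeta_div (s := 2 + ((t + τ : ℝ) : ℂ) * Complex.I)
        (by rw [hre]; norm_num)
    rw [h4, logDeriv_apply, neg_div]
  have hL : ∀ n : ℕ, (vonMangoldt n : ℂ) * (φ (Real.log ((n : ℝ) / N)) : ℂ) * nu t n =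
      1 / (2 * (Real.pi : ℂ)) * ∫ τ, F n τ := by
    intro n
    rcases Nat.eq_zero_or_pos n with h0 | h0
    · subst h0
      simp [hF]
    · have hn := h0.ne'
      have e : (vonMangoldt n : ℂ) * (φ (Real.log ((n : ℝ) / N)) : ℂ) * nu t n =
          1 / (2 * (Real.pi : ℂ)) * (((vonMangoldt n : ℂ) * nu t n) *
            ∫ τ : ℝ, Mt φ (((2 : ℝ) : ℂ) + (τ : ℂ) * Complex.I) *
              Complex.exp (-(((2 : ℝ) : ℂ) + (τ : ℂ) * Complex.I) *
                ((Real.log ((n : ℝ) / N) : ℝ) : ℂ))) := by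
        rw [hinv (Real.log ((n : ℝ) / N))]
        ring
      rw [e, ← integral_const_mul]
      congr 1
      refine integral_congr_ae (Filter.Eventually.of_forall fun τ => ?_)
      simp only [hF, hG, LSeries.term_def, if_neg hn]
      have h5 := MEL_term n hn N hN0 t τ
      rw [div_eq_mul_inv]
      calc (vonMangoldt n : ℂ) * nu t n * (Mt φ (((2 : ℝ) : ℂ) + (τ : ℂ) * Complex.I) *
            Complex.exp (-(((2 : ℝ) : ℂ) + (τ : ℂ) * Complex.I) *
                ((Real.log ((n : ℝ) / N) : ℝ) : ℂ)))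
          = (vonMangoldt n : ℂ) * Mt φ (((2 : ℝ) : ℂ) + (τ : ℂ) * Complex.I) *
            (nu t n * Complex.exp (-(((2 : ℝ) : ℂ) + (τ : ℂ) * Complex.I) *
                ((Real.log ((n : ℝ) / N) : ℝ) : ℂ))) := by ring
        _ = _ := by
            rw [h5, h2]
            ring
  unfold DL
  simp_rw [hL]
  rw [tsum_mul_left, hS.tsum_eq, hR]

end Pool.Agent.SCT
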